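import Mathlib

/-!
# Graphs all of whose total dominating sets are ODPU-sets

For a finite connected simple graph `G`, every total dominating set of `G` is an ODPU-set
if and only if `G` is complete.
-/

namespace Pool.Agent.Results.MP_10a600_co.CompleteIff

variable {V : Type*}

/-- The open `M`-distance pattern of the vertex `u`: the set of all distances `d(u,v)`
with `v ∈ M`, `v ≠ u`. -/
def openPattern (G : SimpleGraph V) (M : Set V) (u : V) : Set ℕ :=
  {d | ∃ v ∈ M, v ≠ u ∧ G.dist u v = d}

/-- `M` is an ODPU-set of `G`: it is nonempty and all vertices have the same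
open `M`-distance pattern. -/
def IsODPUSet (G : SimpleGraph V) (M : Set V) : Prop :=
  M.Nonempty ∧ ∀ u u' : V, openPattern G M u = openPattern G M u'

/-- `S` is a total dominating set of `G`: every vertex of `G` has a neighbour in `S`. -/
def IsTotalDominating (G : SimpleGraph V) (S : Set V) : Prop :=
  ∀ u : V, ∃ v ∈ S, G.Adj u v

/-- In a connected graph, a vertex `u ≠ v` has a neighbour one step closer to `v`. -/
lemma exists_adj_closer {G : SimpleGraph V} (hG : G.Connected) {u v : V} (h : u ≠ v) :
    ∃ w, G.Adj u w ∧ G.dist v w + 1 = G.dist v u := by
  obtain ⟨p, hp⟩ := hG.exists_walk_length_eq_dist u v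
  cases p with
  | nil => exact absurd rfl h
  | @cons _ w _ hadj q =>
    refine ⟨w, hadj, ?_⟩
    have h1 : G.dist w v ≤ q.length := SimpleGraph.dist_le q
    have h2 : q.length + 1 = G.dist u v := by simpa using hp
    have h3 : G.dist u v ≤ G.dist u w + G.dist w v := hG.dist_triangle
    have h4 : G.dist u w = 1 := SimpleGraph.dist_eq_one_iff_adj.mpr hadj
    rw [SimpleGraph.dist_comm (u := v) (v := w), SimpleGraph.dist_comm (u := v) (v := u)]
    omega

/-- **Main theorem.** A finite connected simple graph `G` has the property that every total
dominating set of `G` is an ODPU-set of `G` if and only if `G` is a complete graph. -/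
theorem result {V : Type*} [Finite V] (G : SimpleGraph V) (hG : G.Connected) :
    (∀ S : Set V, IsTotalDominating G S → IsODPUSet G S) ↔ G = ⊤ := by
  classical
  have : Fintype V := Fintype.ofFinite V
  have : Nonempty V := hG.nonempty
  constructor
  · intro H
    -- eccentricity function
    let e : V → ℕ := fun v => Finset.univ.sup (fun u => G.dist v u)
    have he_le : ∀ v u, G.dist v u ≤ e v := fun v u =>
      Finset.le_sup (f := fun u => G.dist v u) (Finset.mem_univ u)
    have he_att : ∀ v, ∃ u, G.dist v u = e v := by
      intro v
      obtain ⟨u, -, hu⟩ := Finset.exists_mem_eq_sup Finset.univ Finset.univ_nonempty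
        (fun u => G.dist v u)
      exact ⟨u, hu.symm⟩
    obtain ⟨v, hv⟩ := Finite.exists_min e
    by_cases hr : e v ≤ 1
    · -- radius at most one: `S = {v, all}` ; every vertex is at distance ≤ 1 from `v`
      by_contra hne
      -- there are two distinct non-adjacent vertices
      have : ∃ a b : V, a ≠ b ∧ ¬ G.Adj a b := by
        by_contra hcon
        push Not at hcon
        apply hne
        ext a b
        simp only [SimpleGraph.top_adj]
        exact ⟨fun h => h.ne, fun h => hcon a b h⟩
      obtain ⟨a, b, hab, hnadj⟩ := this
      have hvadj : ∀ u, u ≠ v → G.Adj u v := by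
        intro u hu
        have h1 : G.dist v u ≤ 1 := (he_le v u).trans hr
        have h2 : 0 < G.dist v u := hG.pos_dist_of_ne (Ne.symm hu)
        have h3 : G.dist v u = 1 := by omega
        exact (SimpleGraph.dist_eq_one_iff_adj.mp h3).symm
      have hav : a ≠ v := by
        rintro rfl
        exact hnadj (hvadj b (Ne.symm hab)).symm
      have htd : IsTotalDominating G Set.univ := by
        intro u
        by_cases huv : u = v
        · subst huv
          exact ⟨a, trivial, (hvadj a hav).symm⟩
        · exact ⟨v, trivial, hvadj u huv⟩
      obtain ⟨-, hpat⟩ := H Set.univ htd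
      have hmem : G.dist a b ∈ openPattern G Set.univ a := ⟨b, trivial, hab.symm, rfl⟩
      rw [hpat a v] at hmem
      obtain ⟨w, -, hwv, hw⟩ := hmem
      have h1 : G.dist v w ≤ 1 := (he_le v w).trans hr
      have h2 : 0 < G.dist a b := hG.pos_dist_of_ne hab
      have h3 : G.dist a b = 1 := by omega
      exact hnadj (SimpleGraph.dist_eq_one_iff_adj.mp h3)
    · exfalso
      push Not at hr
      set r := e v with hrdef
      let M : Set V := {u | G.dist v u ≠ r}
      have htd : IsTotalDominating G M := by
        intro u
        by_cases huv : u = v
        · subst huv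
          obtain ⟨x, hx⟩ := he_att u
          have hxu : x ≠ u := by
            rintro rfl
            rw [SimpleGraph.dist_self] at hx
            omega
          obtain ⟨p, hp⟩ := hG.exists_walk_length_eq_dist u x
          cases p with
          | nil => exact absurd rfl hxu
          | @cons _ w _ hadj q =>
            refine ⟨w, ?_, hadj⟩
            have : G.dist u w = 1 := SimpleGraph.dist_eq_one_iff_adj.mpr hadj
            change G.dist u w ≠ r
            omega
        · obtain ⟨w, hadj, hw⟩ := exists_adj_closer hG huv
          refine ⟨w, ?_, hadj⟩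
          change G.dist v w ≠ r
          have := he_le v u
          omega
      obtain ⟨⟨m, hm⟩, hpat⟩ := H M htd
      -- the eccentricity of `m` is attained at some `u`
      obtain ⟨u, hu⟩ := he_att m
      have hrm : r ≤ e m := hv m
      have hum : m ≠ u := by
        rintro rfl
        rw [SimpleGraph.dist_self] at hu
        omega
      have hmem : e m ∈ openPattern G M u := ⟨m, hm, hum, by rw [SimpleGraph.dist_comm]; exact hu⟩
      rw [hpat u v] at hmem
      obtain ⟨x, hxM, -, hx⟩ := hmem
      have hle := he_le v x
      apply hxM
      omega
  · rintro rfl S hS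
    refine ⟨?_, ?_⟩
    · obtain ⟨v, hv, -⟩ := hS (Classical.arbitrary V)
      exact ⟨v, hv⟩
    · have key : ∀ u : V, openPattern (⊤ : SimpleGraph V) S u = {1} := by
        intro u
        ext d
        simp only [openPattern, Set.mem_ofPred_eq, Set.mem_singleton_iff]
        constructor
        · rintro ⟨v, -, hvu, rfl⟩
          exact SimpleGraph.dist_eq_one_iff_adj.mpr (by simpa using hvu.symm)
        · rintro rfl
          obtain ⟨v, hv, hadj⟩ := hS u
          exact ⟨v, hv, hadj.ne', SimpleGraph.dist_eq_one_iff_adj.mpr hadj⟩
      intro u u'
      rw [key u, key u']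

end Pool.Agent.Results.MP_10a600_co.CompleteIff
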